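import Pool.Agent.Helper11.Grimm.Cnt

/-!
# Many smooth numbers in a short interval: asymptotic form
-/

set_option autoImplicit false

open Finset

namespace Pool.Agent.Helper11.Grimm

theorem rpow_pow_nat {X : ℝ} (hX : 0 < X) (a : ℝ) (n : ℕ) : (X ^ a) ^ n = X ^ (a * n) := by
  rw [← Real.rpow_natCast, ← Real.rpow_mul hX.le]

theorem half_le_floor {t : ℝ} (ht : 1 ≤ t) : t / 2 ≤ (⌊t⌋₊ : ℝ) := by
  have h1 := Nat.lt_floor_add_one t
  have h2 : (1 : ℝ) ≤ (⌊t⌋₊ : ℝ) := by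
    have : 1 ≤ ⌊t⌋₊ := Nat.one_le_floor_iff t |>.2 ht
    exact_mod_cast this
  linarith

/-- the divisor bound in the form we need -/
theorem divisor_bound {ε : ℝ} (hε : 0 < ε) : ∃ K : ℝ, 1 ≤ K ∧ ∀ x : ℕ, 1 ≤ x → ∃ D : ℕ,
    (∀ n, 1 ≤ n → n ≤ 2 * x → n.divisors.card ≤ D) ∧ (D : ℝ) ^ 3 ≤ K * (x : ℝ) ^ ε := by
  obtain ⟨m, hm⟩ := exists_nat_gt (3 / ε)
  have hm0 : 0 < m := by
    rcases Nat.eq_zero_or_pos m with h | h
    · rw [h] at hm
      have : 0 < 3 / ε := by positivity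
      push_cast at hm
      linarith
    · exact h
  have hmR : (0 : ℝ) < m := by exact_mod_cast hm0
  have hmε : 3 / (m : ℝ) ≤ ε := by
    rw [div_lt_iff₀ hε] at hm
    rw [div_le_iff₀ hmR]
    linarith
  set K0 : ℕ := (2 * m ^ m) ^ (2 ^ m) with hK0
  have hK01 : 1 ≤ K0 := by
    rw [hK0]
    exact Nat.one_le_pow _ _ (by positivity)
  have hK0R : (1 : ℝ) ≤ K0 := by exact_mod_cast hK01
  refine ⟨(2 * K0 : ℝ) ^ 3, one_le_pow₀ (by linarith), fun x hx => ?_⟩
  have hxR : (1 : ℝ) ≤ x := by exact_mod_cast hx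
  set D : ℕ := ⌊((2 * K0 : ℝ) * x) ^ (1 / (m : ℝ))⌋₊ with hD
  refine ⟨D, fun n hn hn2 => ?_, ?_⟩
  · rw [hD]
    apply Nat.le_floor
    have h1 := Pool.Agent.Helper27.card_divisors_pow_le' m hm0 n hn
    have h2 : ((n.divisors.card : ℝ)) ^ m ≤ (2 * K0 : ℝ) * x := by
      have h3 : ((n.divisors.card : ℝ)) ^ m ≤ (K0 : ℝ) * n := by exact_mod_cast h1
      have h4 : (n : ℝ) ≤ 2 * x := by exact_mod_cast hn2
      calc _ ≤ (K0 : ℝ) * n := h3
        _ ≤ K0 * (2 * x) := mul_le_mul_of_nonneg_left h4 (by positivity)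
        _ = _ := by ring
    calc (n.divisors.card : ℝ) = ((n.divisors.card : ℝ) ^ m) ^ (1 / (m : ℝ)) := by
          rw [← Real.rpow_natCast, ← Real.rpow_mul (by positivity), mul_one_div_cancel hmR.ne',
            Real.rpow_one]
      _ ≤ _ := Real.rpow_le_rpow (by positivity) h2 (by positivity)
  · have hb : (0 : ℝ) < 2 * K0 * x := by positivity
    have h1 : (D : ℝ) ≤ ((2 * K0 : ℝ) * x) ^ (1 / (m : ℝ)) := Nat.floor_le (by positivity)
    calc (D : ℝ) ^ 3 ≤ (((2 * K0 : ℝ) * x) ^ (1 / (m : ℝ))) ^ 3 :=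
          pow_le_pow_left₀ (by positivity) h1 3
      _ = ((2 * K0 : ℝ) * x) ^ (3 / (m : ℝ)) := by
          rw [rpow_pow_nat hb]
          congr 1
          push_cast
          ring
      _ = (2 * K0 : ℝ) ^ (3 / (m : ℝ)) * (x : ℝ) ^ (3 / (m : ℝ)) :=
          Real.mul_rpow (by positivity) (by positivity)
      _ ≤ (2 * K0 : ℝ) ^ (3 : ℝ) * (x : ℝ) ^ ε := by
          have hm1 : 3 / (m : ℝ) ≤ 3 := by
            rw [div_le_iff₀ hmR]
            have : (1 : ℝ) ≤ m := by exact_mod_cast hm0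
            linarith
          exact mul_le_mul (Real.rpow_le_rpow_of_exponent_le (by linarith) hm1)
            (Real.rpow_le_rpow_of_exponent_le hxR hmε) (by positivity) (by positivity)
      _ = _ := by
          congr 1
          rw [← Real.rpow_natCast]
          norm_num

/-- all prime factors of `n` are at most `P` -/
def Smo (P : ℝ) (n : ℕ) : Prop := ∀ p : ℕ, p.Prime → p ∣ n → (p : ℝ) ≤ P

noncomputable instance (P : ℝ) (n : ℕ) : Decidable (Smo P n) := Classical.dec _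

theorem Smo.mono {P P' : ℝ} {n : ℕ} (h : Smo P n) (hP : P ≤ P') : Smo P' n :=
  fun p hp hd => (h p hp hd).trans hP

theorem smooth_count {ε : ℝ} (hε : 0 < ε) (hε1 : ε ≤ 1 / 10) : ∃ N : ℕ, 1 ≤ N ∧ ∀ x h : ℕ, N ≤ x →
    (x : ℝ) ^ (3 / 7 + ε) / 2 ≤ h → h ≤ x →
      (x : ℝ) ^ (3 / 7 + ε / 2) ≤
        (((Ioc x (x + h)).filter (fun n => Smo ((x : ℝ) ^ (3 / 7 - ε / 3)) n)).card : ℝ) := by
  obtain ⟨K, hK1, hKD⟩ := divisor_bound (show 0 < ε / 20 by positivity)
  have hlim : Filter.Tendsto (fun x : ℕ => (x : ℝ) ^ (ε / 20)) Filter.atTop Filter.atTop :=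
    (tendsto_rpow_atTop (by positivity)).comp tendsto_natCast_atTop_atTop
  obtain ⟨N, hN⟩ := (Filter.eventually_atTop.1 (hlim.eventually_ge_atTop (8192 * K)))
  refine ⟨max N 1, le_max_right _ _, fun x h hx hh hhx => ?_⟩
  have hu := hN x ((le_max_left _ _).trans hx)
  have hx1 : 1 ≤ x := (le_max_right _ _).trans hx
  have hX1 : (1 : ℝ) ≤ x := by exact_mod_cast hx1
  set X : ℝ := (x : ℝ) with hX
  have hX0 : 0 < X := by linarith
  have hu1 : 8192 ≤ X ^ (ε / 20) := by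
    have : 8192 * 1 ≤ 8192 * K := by linarith
    linarith
  have hmono : ∀ a b : ℝ, a ≤ b → X ^ a ≤ X ^ b := fun a b hab =>
    Real.rpow_le_rpow_of_exponent_le hX1 hab
  have hone : ∀ a : ℝ, 0 ≤ a → 1 ≤ X ^ a := fun a ha => Real.one_le_rpow hX1 ha
  have hmul : ∀ a b : ℝ, X ^ a * X ^ b = X ^ (a + b) := fun a b => (Real.rpow_add hX0 a b).symm
  have hbig : ∀ c a : ℝ, ε / 20 ≤ a → c ≤ 8192 → c ≤ X ^ a := fun c a ha hc =>
    hc.trans (hu1.trans (hmono _ _ ha))
  obtain ⟨D, hD, hD3⟩ := hKD x hx1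
  set α : ℝ := 1 / 7 + ε with hα
  set β : ℝ := 1 / 7 - ε / 5 with hβ
  have hβ0 : 0 < β := by rw [hβ]; linarith
  have hα0 : 0 < α := by rw [hα]; linarith
  set C : ℕ := ⌊X ^ α⌋₊ with hC
  set Q : ℕ := ⌊X ^ β⌋₊ with hQ
  have hCu : (C : ℝ) ≤ X ^ α := Nat.floor_le (by positivity)
  have hQu : (Q : ℝ) ≤ X ^ β := Nat.floor_le (by positivity)
  have hCl : X ^ α / 2 ≤ C := half_le_floor (hone _ hα0.le)
  have hQl : X ^ β / 2 ≤ Q := half_le_floor (hone _ hβ0.le)
  have hC1 : 1 ≤ C := (Nat.one_le_floor_iff _).2 (hone _ hα0.le)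
  have hQ1 : 1 ≤ Q := (Nat.one_le_floor_iff _).2 (hone _ hβ0.le)
  have e1 : 8192 * Q ^ 6 * C ≤ x := by
    have h1 : 8192 * (Q : ℝ) ^ 6 * C ≤ X := by
      calc 8192 * (Q : ℝ) ^ 6 * C ≤ 8192 * (X ^ β) ^ 6 * X ^ α := by
            refine mul_le_mul ?_ hCu (by positivity) (by positivity)
            exact mul_le_mul_of_nonneg_left (pow_le_pow_left₀ (by positivity) hQu 6) (by norm_num)
        _ = 8192 * X ^ (1 - ε / 5) := by
            rw [rpow_pow_nat hX0, mul_assoc, hmul]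
            congr 2
            rw [hα, hβ]
            push_cast
            ring
        _ ≤ X ^ (ε / 5) * X ^ (1 - ε / 5) :=
            mul_le_mul_of_nonneg_right (hbig _ _ (by linarith) le_rfl) (by positivity)
        _ = X := by
            rw [hmul]
            rw [show ε / 5 + (1 - ε / 5) = 1 by ring, Real.rpow_one]
    rw [hX] at h1
    exact_mod_cast h1
  have e2 : 32 * x * C ≤ Q ^ 2 * h ^ 2 := by
    have h1 : 32 * X * (C : ℝ) ≤ (Q : ℝ) ^ 2 * (h : ℝ) ^ 2 := by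
      calc 32 * X * (C : ℝ) ≤ 32 * X * X ^ α := mul_le_mul_of_nonneg_left hCu (by positivity)
        _ = 512 * X ^ (1 + α) / 16 := by
            rw [Real.rpow_add hX0 1 α, Real.rpow_one]
            ring
        _ ≤ X ^ (3 * ε / 5) * X ^ (1 + α) / 16 := by
            refine div_le_div_of_nonneg_right ?_ (by norm_num)
            exact mul_le_mul_of_nonneg_right (hbig _ _ (by linarith) (by norm_num)) (by positivity)
        _ = (X ^ β / 2) ^ 2 * (X ^ (3 / 7 + ε) / 2) ^ 2 := by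
            rw [hmul, div_pow, div_pow, rpow_pow_nat hX0, rpow_pow_nat hX0]
            have h2 : X ^ (β * ((2 : ℕ) : ℝ)) / 2 ^ 2 * (X ^ ((3 / 7 + ε) * ((2 : ℕ) : ℝ)) / 2 ^ 2) =
              X ^ (β * ((2 : ℕ) : ℝ)) * X ^ ((3 / 7 + ε) * ((2 : ℕ) : ℝ)) / 16 := by ring
            rw [h2, hmul]
            congr 2
            rw [hα, hβ]
            push_cast
            ring
        _ ≤ (Q : ℝ) ^ 2 * (h : ℝ) ^ 2 :=
            mul_le_mul (pow_le_pow_left₀ (by positivity) hQl 2)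
              (pow_le_pow_left₀ (by positivity) hh 2) (by positivity) (by positivity)
    rw [hX] at h1
    exact_mod_cast h1
  have e3 : 96 * C * Q ^ 2 ≤ h := by
    have h1 : 96 * (C : ℝ) * (Q : ℝ) ^ 2 ≤ h := by
      calc 96 * (C : ℝ) * (Q : ℝ) ^ 2 ≤ 96 * X ^ α * (X ^ β) ^ 2 :=
            mul_le_mul (mul_le_mul_of_nonneg_left hCu (by norm_num))
              (pow_le_pow_left₀ (by positivity) hQu 2) (by positivity) (by positivity)
        _ = 192 * X ^ (3 / 7 + 3 * ε / 5) / 2 := by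
            rw [rpow_pow_nat hX0, mul_assoc, hmul]
            have h2 : α + β * ((2 : ℕ) : ℝ) = 3 / 7 + 3 * ε / 5 := by
              rw [hα, hβ]
              push_cast
              ring
            rw [h2]
            ring
        _ ≤ X ^ (2 * ε / 5) * X ^ (3 / 7 + 3 * ε / 5) / 2 := by
            refine div_le_div_of_nonneg_right ?_ (by norm_num)
            exact mul_le_mul_of_nonneg_right (hbig _ _ (by linarith) (by norm_num)) (by positivity)
        _ = X ^ (3 / 7 + ε) / 2 := by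
            rw [hmul]
            congr 2
            ring
        _ ≤ h := hh
    exact_mod_cast h1
  have hcore := core hQ1 hC1 e1 e2 e3 hhx (fun n hn1 hn2 => hD n hn1 (by omega))
  -- smoothness
  have hsm : (Ioc x (x + h)).filter (fun n => Smt x C n) ⊆
      (Ioc x (x + h)).filter (fun n => Smo (X ^ (3 / 7 - ε / 3)) n) := by
    intro n hn
    rw [mem_filter] at hn ⊢
    refine ⟨hn.1, fun p hp hd => ?_⟩
    rcases hn.2 p hp hd with h1 | h1
    · have h2 : (p : ℝ) ≤ 2 * C := by exact_mod_cast h1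
      calc (p : ℝ) ≤ 2 * C := h2
        _ ≤ 2 * X ^ α := by linarith
        _ ≤ X ^ (3 / 7 - ε / 3 - α) * X ^ α := by
            refine mul_le_mul_of_nonneg_right (hbig _ _ ?_ (by norm_num)) (by positivity)
            rw [hα]
            linarith
        _ = X ^ (3 / 7 - ε / 3) := by
            rw [hmul]
            congr 1
            ring
    · have h2 : (p : ℝ) ^ 2 * C ≤ 9 * X := by
        rw [hX]
        exact_mod_cast h1
      have h3 : (p : ℝ) ^ 2 * (X ^ α / 2) ≤ 9 * X :=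
        (mul_le_mul_of_nonneg_left hCl (by positivity)).trans h2
      have h4 : (p : ℝ) ^ 2 * X ^ α ≤ (X ^ (3 / 7 - ε / 3)) ^ 2 * X ^ α := by
        calc (p : ℝ) ^ 2 * X ^ α ≤ 18 * X := by linarith
          _ ≤ X ^ (ε / 3) * X := mul_le_mul_of_nonneg_right (hbig _ _ (by linarith) (by norm_num)) hX0.le
          _ = X ^ (ε / 3) * X ^ (1 : ℝ) := by rw [Real.rpow_one]
          _ = (X ^ (3 / 7 - ε / 3)) ^ 2 * X ^ α := by
              rw [rpow_pow_nat hX0, hmul, hmul]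
              congr 1
              rw [hα]
              push_cast
              ring
      have h5 : (p : ℝ) ^ 2 ≤ (X ^ (3 / 7 - ε / 3)) ^ 2 :=
        le_of_mul_le_mul_right h4 (by positivity)
      exact (pow_le_pow_iff_left₀ (by positivity) (by positivity) (by norm_num)).1 h5
  have h6 : (C : ℝ) * (Q * Q) ≤ (D : ℝ) ^ 3 *
      (((Ioc x (x + h)).filter (fun n => Smo (X ^ (3 / 7 - ε / 3)) n)).card : ℝ) := by
    have h7 : (C : ℝ) * (Q * Q) ≤ (D : ℝ) ^ 3 *
        (((Ioc x (x + h)).filter (fun n => Smt x C n)).card : ℝ) := by exact_mod_cast hcore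
    refine h7.trans (mul_le_mul_of_nonneg_left ?_ (by positivity))
    exact_mod_cast card_le_card hsm
  have h8 : X ^ (3 / 7 + 3 * ε / 5) / 8 ≤ (C : ℝ) * (Q * Q) := by
    calc X ^ (3 / 7 + 3 * ε / 5) / 8 = (X ^ α / 2) * ((X ^ β / 2) * (X ^ β / 2)) := by
          have h9 : (X ^ α / 2) * ((X ^ β / 2) * (X ^ β / 2)) = X ^ α * (X ^ β * X ^ β) / 8 := by ring
          rw [h9, hmul, hmul]
          congr 2
          rw [hα, hβ]
          ring
      _ ≤ _ := by
          refine mul_le_mul hCl (mul_le_mul hQl hQl (by positivity) (by positivity))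
            (by positivity) (by positivity)
  set M : ℝ := (((Ioc x (x + h)).filter (fun n => Smo (X ^ (3 / 7 - ε / 3)) n)).card : ℝ) with hM
  have hM0 : 0 ≤ M := by rw [hM]; positivity
  have h9 : X ^ (3 / 7 + 3 * ε / 5) / 8 ≤ K * X ^ (ε / 20) * M :=
    h8.trans (h6.trans (mul_le_mul_of_nonneg_right hD3 hM0))
  have h10 : X ^ (3 / 7 + 3 * ε / 5) = X ^ (3 / 7 + ε / 2) * X ^ (ε / 20) * X ^ (ε / 20) := by
    rw [hmul, hmul]
    congr 1
    ring
  have h11 : 0 < X ^ (ε / 20) := by positivity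
  have h12 : 8 * K ≤ X ^ (ε / 20) := by linarith
  have h13 : X ^ (3 / 7 + ε / 2) * (8 * K) * X ^ (ε / 20) ≤ M * (8 * K) * X ^ (ε / 20) := by
    calc X ^ (3 / 7 + ε / 2) * (8 * K) * X ^ (ε / 20) ≤
        X ^ (3 / 7 + ε / 2) * X ^ (ε / 20) * X ^ (ε / 20) :=
          mul_le_mul_of_nonneg_right (mul_le_mul_of_nonneg_left h12 (by positivity)) h11.le
      _ = X ^ (3 / 7 + 3 * ε / 5) := h10.symm
      _ ≤ 8 * (K * X ^ (ε / 20) * M) := by linarith
      _ = _ := by ring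
  have h14 := le_of_mul_le_mul_right h13 h11
  exact le_of_mul_le_mul_right h14 (by linarith)

end Pool.Agent.Helper11.Grimm
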