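import Pool.Agent.Helper11.Grimm.Hyp
import Pool.Agent.Helper27.DivBound

/-!
# Many smooth numbers in a short interval: the combinatorial core
-/

set_option autoImplicit false

open Finset

namespace Pool.Agent.Helper11.Grimm

/-- reduced fractions `p/q` in `(1, 2]` with `Q < q ≤ 2 Q`, as pairs `⟨q, p⟩` -/
def Fr (Q : ℕ) : Finset (Σ _ : ℕ, ℕ) :=
  (Ioc Q (2 * Q)).sigma fun q => (Ico (q + 1) (q + 1 + q)).filter fun p => q.Coprime p

theorem mem_Fr {Q : ℕ} {z : Σ _ : ℕ, ℕ} : z ∈ Fr Q ↔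
    (Q < z.1 ∧ z.1 ≤ 2 * Q) ∧ (z.1 + 1 ≤ z.2 ∧ z.2 < z.1 + 1 + z.1) ∧ z.1.Coprime z.2 := by
  rw [Fr, mem_sigma, mem_Ioc, mem_filter, mem_Ico]

theorem le_divisors_mul_totient (n : ℕ) (hn : 0 < n) : n ≤ n.divisors.card * Nat.totient n := by
  calc n = ∑ m ∈ n.divisors, Nat.totient m := (Nat.sum_totient n).symm
    _ ≤ n.divisors.card • Nat.totient n := by
        apply Finset.sum_le_card_nsmul
        intro m hm
        exact Nat.le_of_dvd (Nat.totient_pos.2 hn)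
          (Nat.totient_dvd_of_dvd (Nat.dvd_of_mem_divisors hm))
    _ = _ := by rw [smul_eq_mul]

theorem Fr_card {Q D : ℕ} (hD : ∀ q, 1 ≤ q → q ≤ 2 * Q → q.divisors.card ≤ D) :
    Q * Q ≤ D * (Fr Q).card := by
  rw [Fr, card_sigma, mul_sum]
  have h1 : ∀ q ∈ Ioc Q (2 * Q), Q ≤
      D * ((Ico (q + 1) (q + 1 + q)).filter fun p => q.Coprime p).card := by
    intro q hq
    rw [mem_Ioc] at hq
    rw [Nat.filter_coprime_Ico_eq_totient]
    calc Q ≤ q := hq.1.le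
      _ ≤ q.divisors.card * q.totient := le_divisors_mul_totient q (by omega)
      _ ≤ D * q.totient := Nat.mul_le_mul_right _ (hD q (by omega) hq.2)
  calc Q * Q = ∑ q ∈ Ioc Q (2 * Q), Q := by
        rw [sum_const, Nat.card_Ioc, smul_eq_mul]
        congr 1
        omega
    _ ≤ _ := sum_le_sum h1

/-- the admissible values of `a` for a given `c` -/
def Aset (x h c : ℕ) (a : ℕ) : Prop :=
  49 * x ≤ 100 * (c * a ^ 2) ∧ c * a ^ 2 ≤ 4 * x ∧ ∃ b : ℕ, x < c * a * b ∧ c * a * b ≤ x + h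

theorem exists_a {x h C Q c : ℕ} (hQ : 1 ≤ Q) (h1 : 8192 * Q ^ 6 * C ≤ x)
    (h2 : 32 * x * C ≤ Q ^ 2 * h ^ 2) (h3 : 96 * C * Q ^ 2 ≤ h) (hc : C < c) (hc2 : c ≤ 2 * C) :
    ∃ g : (Σ _ : ℕ, ℕ) → ℕ, (∀ z ∈ Fr Q, Aset x h c (g z)) ∧
      ∀ z ∈ Fr Q, ∀ z' ∈ Fr Q, g z = g z' → z = z' := by
  have hc0 : (0 : ℝ) < c := by
    have : 0 < c := by omega
    exact_mod_cast this
  have hcC : (c : ℝ) ≤ 2 * C := by exact_mod_cast hc2
  have hQ1 : (1 : ℝ) ≤ Q := by exact_mod_cast hQ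
  have hC1 : (1 : ℝ) ≤ C := by
    have : 1 ≤ C := by omega
    exact_mod_cast this
  have h1R : 8192 * (Q : ℝ) ^ 6 * C ≤ x := by exact_mod_cast h1
  have h2R : 32 * (x : ℝ) * C ≤ (Q : ℝ) ^ 2 * (h : ℝ) ^ 2 := by exact_mod_cast h2
  have h3R : 96 * (C : ℝ) * (Q : ℝ) ^ 2 ≤ h := by exact_mod_cast h3
  have hx0 : (0 : ℝ) < x := by
    have : 0 < 8192 * (Q : ℝ) ^ 6 * C := by positivity
    linarith
  set r : ℝ := √((x : ℝ) / c) with hr
  have hrsq : r ^ 2 = (x : ℝ) / c := Real.sq_sqrt (by positivity)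
  have hr0 : 0 < r := Real.sqrt_pos.2 (by positivity)
  have hcr : c * r ^ 2 = x := by rw [hrsq]; field_simp
  have c1 : 64 * (Q : ℝ) ^ 3 ≤ r := by
    apply Real.le_sqrt_of_sq_le
    rw [le_div_iff₀ hc0]
    calc (64 * (Q : ℝ) ^ 3) ^ 2 * c ≤ (64 * (Q : ℝ) ^ 3) ^ 2 * (2 * C) :=
          mul_le_mul_of_nonneg_left hcC (by positivity)
      _ = 8192 * (Q : ℝ) ^ 6 * C := by ring
      _ ≤ x := h1R
  have c2 : 4 * r ≤ Q * ((h : ℝ) / c) := by
    have e1 : (4 * r) ^ 2 ≤ (Q * ((h : ℝ) / c)) ^ 2 := by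
      have e2 : (Q * ((h : ℝ) / c)) ^ 2 = Q ^ 2 * h ^ 2 / c ^ 2 := by
        field_simp
      rw [e2, le_div_iff₀ (by positivity)]
      have e3 : (4 * r) ^ 2 * (c : ℝ) ^ 2 = 16 * (x : ℝ) * c := by
        rw [← hcr]
        ring
      rw [e3]
      calc 16 * (x : ℝ) * c ≤ 16 * (x : ℝ) * (2 * C) :=
            mul_le_mul_of_nonneg_left hcC (by positivity)
        _ = 32 * x * C := by ring
        _ ≤ _ := h2R
    exact (pow_le_pow_iff_left₀ (by positivity) (by positivity) (by norm_num)).1 e1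
  have c3 : 48 * (Q : ℝ) ^ 2 ≤ (h : ℝ) / c := by
    rw [le_div_iff₀ hc0]
    calc 48 * (Q : ℝ) ^ 2 * c ≤ 48 * (Q : ℝ) ^ 2 * (2 * C) :=
          mul_le_mul_of_nonneg_left hcC (by positivity)
      _ = 96 * C * Q ^ 2 := by ring
      _ ≤ h := h3R
  have key : ∀ z : Σ _ : ℕ, ℕ, z ∈ Fr Q → ∃ a b : ℕ, r * √((z.1 : ℝ) / z.2) ≤ a ∧
      (a : ℝ) < r * √((z.1 : ℝ) / z.2) + 2 * Q ∧ r ^ 2 < a * b ∧
        (a * b : ℝ) ≤ r ^ 2 + (h : ℝ) / c := by
    intro z hz
    obtain ⟨⟨k1, k2⟩, ⟨k3, k4⟩, k5⟩ := mem_Fr.1 hz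
    exact hyp_point hr0 hQ c1 c2 c3 k5.symm k1 k2 (by omega) (by omega)
  classical
  choose! g b hg using key
  refine ⟨g, fun z hz => ?_, fun z hz z' hz' he => ?_⟩
  · obtain ⟨g1, g2, g3, g4⟩ := hg z hz
    obtain ⟨⟨k1, k2⟩, ⟨k3, k4⟩, k5⟩ := mem_Fr.1 hz
    have hz0 : (0 : ℝ) < z.2 := by
      have : 0 < z.2 := by omega
      exact_mod_cast this
    have l1 : (7 / 10 : ℝ) ≤ √((z.1 : ℝ) / z.2) := by
      apply Real.le_sqrt_of_sq_le
      rw [le_div_iff₀ hz0]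
      have : (z.2 : ℝ) ≤ 2 * z.1 := by
        have : z.2 ≤ 2 * z.1 := by omega
        exact_mod_cast this
      linarith
    have l2 : √((z.1 : ℝ) / z.2) ≤ 1 := by
      refine Real.sqrt_le_one.2 ?_
      rw [div_le_one hz0]
      have : z.1 ≤ z.2 := by omega
      exact_mod_cast this
    have l3 : r * (7 / 10) ≤ g z := (mul_le_mul_of_nonneg_left l1 hr0.le).trans g1
    have l4 : (g z : ℝ) ≤ 2 * r := by
      have l5 : r * √((z.1 : ℝ) / z.2) ≤ r * 1 := mul_le_mul_of_nonneg_left l2 hr0.le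
      have l6 : (Q : ℝ) ≤ (Q : ℝ) ^ 3 := by
        calc (Q : ℝ) = (Q : ℝ) ^ 1 := (pow_one _).symm
          _ ≤ (Q : ℝ) ^ 3 := pow_le_pow_right₀ hQ1 (by norm_num)
      linarith
    have l7 : (49 : ℝ) * x ≤ 100 * (c * (g z : ℝ) ^ 2) := by
      have l8 : (r * (7 / 10)) ^ 2 ≤ (g z : ℝ) ^ 2 := pow_le_pow_left₀ (by positivity) l3 2
      have l9 := mul_le_mul_of_nonneg_left l8 hc0.le
      calc (49 : ℝ) * x = 49 * (c * r ^ 2) := by rw [hcr]
        _ = 100 * (c * (r * (7 / 10)) ^ 2) := by ring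
        _ ≤ _ := by linarith
    have l8 : (c : ℝ) * (g z : ℝ) ^ 2 ≤ 4 * x := by
      have l9 : (g z : ℝ) ^ 2 ≤ (2 * r) ^ 2 := pow_le_pow_left₀ (by positivity) l4 2
      calc (c : ℝ) * (g z : ℝ) ^ 2 ≤ c * (2 * r) ^ 2 := mul_le_mul_of_nonneg_left l9 hc0.le
        _ = 4 * (c * r ^ 2) := by ring
        _ = _ := by rw [hcr]
    refine ⟨by exact_mod_cast l7, by exact_mod_cast l8, b z, ?_, ?_⟩
    · have m1 := mul_lt_mul_of_pos_left g3 hc0
      rw [hcr] at m1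
      have m2 : (x : ℝ) < c * g z * b z := by
        calc (x : ℝ) < c * (g z * b z) := m1
          _ = _ := by ring
      exact_mod_cast m2
    · have m1 := mul_le_mul_of_nonneg_left g4 hc0.le
      rw [mul_add, hcr] at m1
      have m2 : (c : ℝ) * ((h : ℝ) / c) = h := by field_simp
      rw [m2] at m1
      have m3 : (c : ℝ) * g z * b z ≤ x + h := by
        calc (c : ℝ) * g z * b z = c * (g z * b z) := by ring
          _ ≤ _ := m1
      exact_mod_cast m3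
  · by_contra hne
    obtain ⟨g1, g2, -, -⟩ := hg z hz
    obtain ⟨g1', g2', -, -⟩ := hg z' hz'
    obtain ⟨⟨k1, k2⟩, ⟨k3, k4⟩, k5⟩ := mem_Fr.1 hz
    obtain ⟨⟨k1', k2'⟩, ⟨k3', k4'⟩, k5'⟩ := mem_Fr.1 hz'
    have hne' : (z.2, z.1) ≠ (z'.2, z'.1) := by
      intro h
      rw [Prod.mk.injEq] at h
      apply hne
      obtain ⟨a, b⟩ := z
      obtain ⟨a', b'⟩ := z'
      simp only at h
      rw [h.1, h.2]
    have hs := hyp_sep hr0 hQ c1 k5.symm k1 k2 (by omega) (by omega) k5'.symm k1' k2'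
      (by omega) (by omega) hne'
    rw [he] at g1 g2
    rcases le_abs.1 hs with h4 | h4
    · linarith
    · linarith

/-- all prime factors of `n` are at most `2 C` or at most `3 √(x/C)` -/
def Smt (x C n : ℕ) : Prop := ∀ p, p.Prime → p ∣ n → p ≤ 2 * C ∨ p ^ 2 * C ≤ 9 * x

noncomputable instance (x C n : ℕ) : Decidable (Smt x C n) := Classical.dec _

theorem core {x h C Q D : ℕ} (hQ : 1 ≤ Q) (hC : 1 ≤ C) (h1 : 8192 * Q ^ 6 * C ≤ x)
    (h2 : 32 * x * C ≤ Q ^ 2 * h ^ 2) (h3 : 96 * C * Q ^ 2 ≤ h) (hhx : h ≤ x)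
    (hD : ∀ n, 1 ≤ n → n ≤ x + h → n.divisors.card ≤ D) :
    C * (Q * Q) ≤ D ^ 3 * ((Ioc x (x + h)).filter (fun n => Smt x C n)).card := by
  classical
  have hx1 : 1 ≤ x := by
    refine le_trans ?_ h1
    exact Nat.one_le_iff_ne_zero.2 (by positivity)
  set S := (Ioc x (x + h)).filter (fun n => Smt x C n) with hS
  have ha : ∀ c ∈ Ioc C (2 * C), ∃ g : (Σ _ : ℕ, ℕ) → ℕ, (∀ z ∈ Fr Q, Aset x h c (g z)) ∧
      ∀ z ∈ Fr Q, ∀ z' ∈ Fr Q, g z = g z' → z = z' := by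
    intro c hc
    rw [mem_Ioc] at hc
    exact exists_a hQ h1 h2 h3 hc.1 hc.2
  choose! g hg hinj using ha
  have hb : ∀ c ∈ Ioc C (2 * C), ∀ z ∈ Fr Q, ∃ b : ℕ, x < c * g c z * b ∧ c * g c z * b ≤ x + h :=
    fun c hc z hz => (hg c hc z hz).2.2
  choose! b hb using hb
  set T := (Ioc C (2 * C)) ×ˢ (Fr Q) with hT
  set f : ℕ × (Σ _ : ℕ, ℕ) → ℕ := fun w => w.1 * g w.1 w.2 * b w.1 w.2 with hf
  have hTS : T.image f ⊆ S := by
    intro n hn
    rw [mem_image] at hn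
    obtain ⟨⟨c, z⟩, hw, rfl⟩ := hn
    rw [hT, mem_product] at hw
    obtain ⟨hc, hz⟩ := hw
    simp only at hc hz
    obtain ⟨b1, b2⟩ := hb c hc z hz
    obtain ⟨a1, a2, -⟩ := hg c hc z hz
    rw [mem_Ioc] at hc
    rw [hS, mem_filter, mem_Ioc]
    refine ⟨⟨b1, b2⟩, fun p hp hd => ?_⟩
    simp only [hf] at hd
    have hc0 : 0 < c := by omega
    have hcab : 0 < c * g c z * b c z := by omega
    have hb0 : 0 < b c z := Nat.pos_of_mul_pos_left hcab
    have ha0 : 0 < g c z := Nat.pos_of_mul_pos_left (Nat.pos_of_mul_pos_right hcab)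
    rcases (hp.dvd_mul).1 hd with hd1 | hd1
    · rcases (hp.dvd_mul).1 hd1 with hd2 | hd2
      · left
        exact (Nat.le_of_dvd hc0 hd2).trans hc.2
      · right
        have hpa : p ≤ g c z := Nat.le_of_dvd ha0 hd2
        calc p ^ 2 * C ≤ (g c z) ^ 2 * c := Nat.mul_le_mul (Nat.pow_le_pow_left hpa 2) hc.1.le
          _ = c * (g c z) ^ 2 := mul_comm _ _
          _ ≤ 9 * x := by omega
    · right
      have hpb : p ≤ b c z := Nat.le_of_dvd hb0 hd1
      have e1 : (c * g c z * b c z) ^ 2 ≤ (2 * x) ^ 2 :=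
        Nat.pow_le_pow_left (b2.trans (by omega)) 2
      have e2 : (b c z) ^ 2 * c * (49 * x) ≤ (9 * x) * (49 * x) := by
        calc (b c z) ^ 2 * c * (49 * x) ≤ (b c z) ^ 2 * c * (100 * (c * (g c z) ^ 2)) :=
              Nat.mul_le_mul_left _ a1
          _ = 100 * (c * g c z * b c z) ^ 2 := by ring
          _ ≤ 100 * (2 * x) ^ 2 := Nat.mul_le_mul_left _ e1
          _ ≤ (9 * x) * (49 * x) := by nlinarith
      have e3 : (b c z) ^ 2 * c ≤ 9 * x := Nat.le_of_mul_le_mul_right e2 (by omega)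
      calc p ^ 2 * C ≤ (b c z) ^ 2 * c := Nat.mul_le_mul (Nat.pow_le_pow_left hpb 2) hc.1.le
        _ ≤ 9 * x := e3
  have hfib : ∀ n ∈ T.image f, (T.filter (fun w => f w = n)).card ≤ D * D := by
    intro n hn
    have hnS := hTS hn
    rw [hS, mem_filter, mem_Ioc] at hnS
    have hn1 : 1 ≤ n := by omega
    have hnD := hD n hn1 hnS.1.2
    calc (T.filter (fun w => f w = n)).card ≤ (n.divisors ×ˢ n.divisors).card := by
          refine card_le_card_of_injOn (fun w => (w.1, g w.1 w.2)) ?_ ?_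
          · intro w hw
            rw [mem_coe, mem_filter] at hw
            rw [mem_coe, mem_product, Nat.mem_divisors, Nat.mem_divisors, ← hw.2]
            have hne : f w ≠ 0 := by rw [hw.2]; omega
            refine ⟨⟨?_, hne⟩, ?_, hne⟩
            · simp only [hf]
              exact (dvd_mul_right _ _).trans (dvd_mul_right _ _)
            · simp only [hf]
              exact (dvd_mul_left _ _).trans (dvd_mul_right _ _)
          · intro w hw w' hw' he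
            rw [mem_coe, mem_filter, hT, mem_product] at hw hw'
            simp only [Prod.mk.injEq] at he
            refine Prod.ext he.1 ?_
            have h4 := he.2
            rw [← he.1] at h4
            exact hinj w.1 hw.1.1 w.2 hw.1.2 w'.2 hw'.1.2 h4
      _ = n.divisors.card * n.divisors.card := card_product _ _
      _ ≤ D * D := Nat.mul_le_mul hnD hnD
  have h4 : T.card ≤ D * D * (T.image f).card := card_le_mul_card_image T (D * D) hfib
  have h5 : (T.image f).card ≤ S.card := card_le_card hTS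
  have h6 : T.card = C * (Fr Q).card := by
    rw [hT, card_product, Nat.card_Ioc]
    congr 1
    omega
  have h7 : Q * Q ≤ D * (Fr Q).card := by
    refine Fr_card fun q hq1 hq2 => hD q hq1 ?_
    have e1 : Q ≤ Q ^ 6 * C := by
      calc Q = Q ^ 1 * 1 := by ring
        _ ≤ Q ^ 6 * C := Nat.mul_le_mul (Nat.pow_le_pow_right hQ (by norm_num)) hC
    have e2 : 8192 * Q ≤ x := by
      calc 8192 * Q ≤ 8192 * (Q ^ 6 * C) := Nat.mul_le_mul_left _ e1
        _ = 8192 * Q ^ 6 * C := by ring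
        _ ≤ x := h1
    omega
  calc C * (Q * Q) ≤ C * (D * (Fr Q).card) := Nat.mul_le_mul_left _ h7
    _ = D * T.card := by rw [h6]; ring
    _ ≤ D * (D * D * (T.image f).card) := Nat.mul_le_mul_left _ h4
    _ ≤ D * (D * D * S.card) := Nat.mul_le_mul_left _ (Nat.mul_le_mul_left _ h5)
    _ = D ^ 3 * S.card := by ring

end Pool.Agent.Helper11.Grimm
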