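import Pool.Agent.Helper11.Grimm.Asy

/-!
# Grimm assignments for blocks of length at least `n^(3/7 + ε)`
-/

set_option autoImplicit false

open Finset

namespace Pool.Agent.Helper11.Grimm

theorem blocks {P : ℕ → Prop} [DecidablePred P] (n h M J : ℕ)
    (H : ∀ j < J, M ≤ ((Ioc (n + j * h) (n + j * h + h)).filter P).card) :
    J * M ≤ ((Ioc n (n + J * h)).filter P).card := by
  induction J with
  | zero => simp
  | succ J ih =>
    have h1 := ih fun j hj => H j (by omega)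
    have h2 := H J (by omega)
    have h3 : Ioc n (n + (J + 1) * h) = Ioc n (n + J * h) ∪ Ioc (n + J * h) (n + J * h + h) := by
      rw [Ioc_union_Ioc_eq_Ioc (by omega) (by omega)]
      congr 1
      ring
    have h4 : Disjoint ((Ioc n (n + J * h)).filter P)
        ((Ioc (n + J * h) (n + J * h + h)).filter P) := by
      refine disjoint_filter_filter ?_
      rw [disjoint_left]
      intro a ha ha'
      rw [mem_Ioc] at ha ha'
      omega
    rw [h3, filter_union, card_union_of_disjoint h4]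
    calc (J + 1) * M = J * M + M := by ring
      _ ≤ _ := add_le_add h1 h2

/-- members with small prime factors compete for the small primes -/
theorem hall {n k : ℕ} {P : ℝ} (hP : 0 ≤ P) (S : Finset ℕ) (f : ℕ → ℕ) (hS : S ⊆ range k)
    (hf : ∀ i ∈ S, (f i).Prime ∧ f i ∣ n + i) (hinj : ∀ i ∈ S, ∀ j ∈ S, f i = f j → i = j)
    {L : ℕ} (hL : n + L + 1 ≤ n + k) :
    (((Ioc n (n + L)).filter (fun m => Smo P m)).card : ℝ) - P ≤ k - S.card := by
  classical
  set U := (range k).filter (fun i => Smo P (n + i)) with hU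
  have h1 : ((Ioc n (n + L)).filter (fun m => Smo P m)).card ≤ U.card := by
    refine card_le_card_of_injOn (fun m => m - n) ?_ ?_
    · intro m hm
      rw [mem_coe, mem_filter, mem_Ioc] at hm
      show m - n ∈ U
      rw [hU, mem_filter, mem_range]
      refine ⟨by omega, ?_⟩
      have : n + (m - n) = m := by omega
      rw [this]
      exact hm.2
    · intro m hm m' hm' he
      rw [mem_coe, mem_filter, mem_Ioc] at hm hm'
      simp only at he
      omega
  have h2 : (S ∩ U).card ≤ ⌊P⌋₊ := by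
    calc (S ∩ U).card ≤ (Icc 1 ⌊P⌋₊).card := by
          refine card_le_card_of_injOn f ?_ ?_
          · intro i hi
            rw [mem_coe, mem_inter, hU, mem_filter] at hi
            obtain ⟨hp, hd⟩ := hf i hi.1
            rw [mem_coe, mem_Icc]
            exact ⟨hp.one_lt.le, Nat.le_floor (hi.2.2 _ hp hd)⟩
          · intro i hi j hj he
            rw [mem_coe, mem_inter] at hi hj
            exact hinj i hi.1 j hj.1 he
      _ = ⌊P⌋₊ := by rw [Nat.card_Icc]; omega
  have h3 : S.card ≤ (S ∩ U).card + (range k \ U).card := by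
    rw [← card_inter_add_card_sdiff S U]
    exact Nat.add_le_add_left (card_le_card (sdiff_subset_sdiff hS (le_refl U))) _
  have h4 : (range k \ U).card + U.card = k := by
    rw [card_sdiff_add_card_eq_card (filter_subset _ _), card_range]
  have h5 : (⌊P⌋₊ : ℝ) ≤ P := Nat.floor_le hP
  have h6 : (S.card : ℝ) + (((Ioc n (n + L)).filter (fun m => Smo P m)).card : ℝ) ≤ ⌊P⌋₊ + k := by
    have : S.card + ((Ioc n (n + L)).filter (fun m => Smo P m)).card ≤ ⌊P⌋₊ + k := by omega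
    exact_mod_cast this
  linarith

theorem missing {ε : ℝ} (hε : 0 < ε) : ∃ N : ℕ, 1 ≤ N ∧ ∀ n k : ℕ, N ≤ n →
    (n : ℝ) ^ (3 / 7 + ε) ≤ k → k ≤ n → ∀ (S : Finset ℕ) (f : ℕ → ℕ), S ⊆ range k →
      (∀ i ∈ S, (f i).Prime ∧ f i ∣ n + i) → (∀ i ∈ S, ∀ j ∈ S, f i = f j → i = j) →
        (k : ℝ) * (n : ℝ) ^ (-ε) ≤ k - S.card := by
  set e : ℝ := min ε (1 / 10) / 2 with he
  have he0 : 0 < e := by
    rw [he]
    have : 0 < min ε (1 / 10) := lt_min hε (by norm_num)
    linarith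
  have he1 : e ≤ 1 / 20 := by
    rw [he]
    have : min ε (1 / 10) ≤ 1 / 10 := min_le_right _ _
    linarith
  have he2 : 2 * e ≤ ε := by
    rw [he]
    have : min ε (1 / 10) ≤ ε := min_le_left _ _
    linarith
  obtain ⟨N1, hN1, hsm⟩ := smooth_count he0 (by linarith)
  have hlim : Filter.Tendsto (fun x : ℕ => (x : ℝ) ^ (e / 2)) Filter.atTop Filter.atTop :=
    (tendsto_rpow_atTop (by positivity)).comp tendsto_natCast_atTop_atTop
  obtain ⟨N2, hN2⟩ := (Filter.eventually_atTop.1 (hlim.eventually_ge_atTop 16))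
  refine ⟨max N1 N2, hN1.trans (le_max_left _ _), fun n k hn hk hkn S f hS hf hinj => ?_⟩
  have hn1 : N1 ≤ n := (le_max_left _ _).trans hn
  have hu := hN2 n ((le_max_right _ _).trans hn)
  have hone : 1 ≤ n := hN1.trans hn1
  have hX1 : (1 : ℝ) ≤ n := by exact_mod_cast hone
  obtain ⟨X, hX⟩ : ∃ X : ℝ, X = n := ⟨_, rfl⟩
  rw [← hX] at hX1 hu hk ⊢
  have hX0 : 0 < X := by linarith
  have hmono : ∀ a b : ℝ, a ≤ b → X ^ a ≤ X ^ b := fun a b hab =>
    Real.rpow_le_rpow_of_exponent_le hX1 hab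
  have hmul : ∀ a b : ℝ, X ^ a * X ^ b = X ^ (a + b) := fun a b => (Real.rpow_add hX0 a b).symm
  have hbig : ∀ c a : ℝ, e / 2 ≤ a → c ≤ 16 → c ≤ X ^ a := fun c a ha hc =>
    hc.trans (hu.trans (hmono _ _ ha))
  have h2X : ∀ a : ℝ, 0 ≤ a → a ≤ 1 → (2 * X) ^ a ≤ 2 * X ^ a := by
    intro a ha ha1
    rw [Real.mul_rpow (by norm_num) hX0.le]
    refine mul_le_mul_of_nonneg_right ?_ (by positivity)
    calc (2 : ℝ) ^ a ≤ 2 ^ (1 : ℝ) := Real.rpow_le_rpow_of_exponent_le (by norm_num) ha1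
      _ = 2 := Real.rpow_one _
  set h : ℕ := ⌊(2 * X) ^ (3 / 7 + e)⌋₊ with hh
  have hhl : (2 * X) ^ (3 / 7 + e) / 2 ≤ h :=
    half_le_floor (Real.one_le_rpow (by linarith) (by linarith))
  have hhu : (h : ℝ) ≤ 2 * X ^ (3 / 7 + e) :=
    (Nat.floor_le (by positivity)).trans (h2X _ (by linarith) (by linarith))
  have hh1 : 1 ≤ h := (Nat.one_le_floor_iff _).2 (Real.one_le_rpow (by linarith) (by linarith))
  have hh1R : (1 : ℝ) ≤ h := by exact_mod_cast hh1
  have hhn : h ≤ n := by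
    have h1 : (h : ℝ) ≤ X := by
      calc (h : ℝ) ≤ 2 * X ^ (3 / 7 + e) := hhu
        _ ≤ X ^ (4 / 7 - e) * X ^ (3 / 7 + e) :=
            mul_le_mul_of_nonneg_right (hbig _ _ (by linarith) (by norm_num)) (by positivity)
        _ = X := by
            rw [hmul, show (4 / 7 - e + (3 / 7 + e) : ℝ) = 1 by ring, Real.rpow_one]
    rw [hX] at h1
    exact_mod_cast h1
  have hk1 : 1 ≤ k := by
    have h1 : (1 : ℝ) ≤ k := (Real.one_le_rpow hX1 (by linarith)).trans hk
    exact_mod_cast h1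
  set J : ℕ := (k - 1) / h with hJ
  have hJ1 : J * h ≤ k - 1 := Nat.div_mul_le_self _ _
  have hJ2 : k ≤ J * h + h := by
    have h1 := Nat.lt_div_mul_add (a := k - 1) (b := h) (by omega)
    rw [← hJ] at h1
    omega
  set P : ℝ := (2 * X) ^ (3 / 7 - e / 3) with hP
  have hP0 : 0 ≤ P := by positivity
  have hPu : P ≤ 2 * X ^ (3 / 7 - e / 3) := h2X _ (by linarith) (by linarith)
  set M : ℕ := ⌈X ^ (3 / 7 + e / 2)⌉₊ with hM
  have hMl : X ^ (3 / 7 + e / 2) ≤ M := Nat.le_ceil _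
  have hblk : J * M ≤ ((Ioc n (n + J * h)).filter (fun m => Smo P m)).card := by
    refine blocks n h M J fun j hj => ?_
    have hjh : j * h + h ≤ J * h := by
      calc j * h + h = (j + 1) * h := by ring
        _ ≤ J * h := Nat.mul_le_mul_right _ hj
    have hx2 : n + j * h ≤ 2 * n := by omega
    have hx2R : ((n + j * h : ℕ) : ℝ) ≤ 2 * X := by
      rw [hX]
      exact_mod_cast hx2
    have hxR : X ≤ ((n + j * h : ℕ) : ℝ) := by
      rw [hX]
      exact_mod_cast Nat.le_add_right n (j * h)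
    have h1 := hsm (n + j * h) h (by omega) (by
      refine le_trans ?_ hhl
      exact div_le_div_of_nonneg_right
        (Real.rpow_le_rpow (by positivity) hx2R (by linarith)) (by norm_num)) (by omega)
    have h2 : (Ioc (n + j * h) (n + j * h + h)).filter
        (fun m => Smo (((n + j * h : ℕ) : ℝ) ^ (3 / 7 - e / 3)) m) ⊆
        (Ioc (n + j * h) (n + j * h + h)).filter (fun m => Smo P m) := by
      intro m hm
      rw [mem_filter] at hm ⊢
      exact ⟨hm.1, hm.2.mono (Real.rpow_le_rpow (by positivity) hx2R (by linarith))⟩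
    rw [hM, Nat.ceil_le]
    calc X ^ (3 / 7 + e / 2) ≤ ((n + j * h : ℕ) : ℝ) ^ (3 / 7 + e / 2) :=
          Real.rpow_le_rpow hX0.le hxR (by linarith)
      _ ≤ _ := h1
      _ ≤ _ := by exact_mod_cast card_le_card h2
  have hhall := hall hP0 S f hS hf hinj (L := J * h) (by omega)
  have hJM : (J : ℝ) * M ≤ (((Ioc n (n + J * h)).filter (fun m => Smo P m)).card : ℝ) := by
    exact_mod_cast hblk
  -- numerical estimates
  have hkR : (k : ℝ) ≤ J * h + h := by exact_mod_cast hJ2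
  have hk2 : X ^ (3 / 7 + 2 * e) ≤ k := (hmono _ _ (by linarith)).trans hk
  have hk4 : 2 * (h : ℝ) ≤ k := by
    calc 2 * (h : ℝ) ≤ 4 * X ^ (3 / 7 + e) := by linarith
      _ ≤ X ^ e * X ^ (3 / 7 + e) :=
          mul_le_mul_of_nonneg_right (hbig _ _ (by linarith) (by norm_num)) (by positivity)
      _ = X ^ (3 / 7 + 2 * e) := by
          rw [hmul]
          congr 1
          ring
      _ ≤ k := hk2
  have hJh : (k : ℝ) / 2 ≤ J * h := by linarith
  have hk0 : (0 : ℝ) < k := by linarith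
  have hA : (k : ℝ) / 4 * X ^ (-(e / 2)) ≤ J * M := by
    have h1 : (k : ℝ) / 2 * X ^ (3 / 7 + e / 2) ≤ J * M * (2 * X ^ (3 / 7 + e)) := by
      calc (k : ℝ) / 2 * X ^ (3 / 7 + e / 2) ≤ (J * h) * M :=
            mul_le_mul hJh hMl (by positivity) (by positivity)
        _ = J * M * h := by ring
        _ ≤ _ := mul_le_mul_of_nonneg_left hhu (by positivity)
    have h2 : (k : ℝ) / 2 * X ^ (3 / 7 + e / 2) =
        (k / 4 * X ^ (-(e / 2))) * (2 * X ^ (3 / 7 + e)) := by
      have h3 : X ^ (3 / 7 + e / 2) = X ^ (-(e / 2)) * X ^ (3 / 7 + e) := by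
        rw [hmul]
        congr 1
        ring
      rw [h3]
      ring
    rw [h2] at h1
    exact le_of_mul_le_mul_right h1 (by positivity)
  have hB : P ≤ (k : ℝ) / 8 * X ^ (-(e / 2)) := by
    calc P ≤ 2 * X ^ (3 / 7 - e / 3) := hPu
      _ ≤ 2 * X ^ (3 / 7 : ℝ) := by
          refine mul_le_mul_of_nonneg_left (hmono _ _ (by linarith)) (by norm_num)
      _ = 16 * X ^ (3 / 7 : ℝ) / 8 := by ring
      _ ≤ X ^ (3 * e / 2) * X ^ (3 / 7 : ℝ) / 8 := by
          refine div_le_div_of_nonneg_right ?_ (by norm_num)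
          exact mul_le_mul_of_nonneg_right (hbig _ _ (by linarith) le_rfl) (by positivity)
      _ = X ^ (3 / 7 + 2 * e) / 8 * X ^ (-(e / 2)) := by
          have h3 : X ^ (3 * e / 2) * X ^ (3 / 7 : ℝ) = X ^ (3 / 7 + 2 * e) * X ^ (-(e / 2)) := by
            rw [hmul, hmul]
            congr 1
            ring
          rw [h3]
          ring
      _ ≤ _ := by
          refine mul_le_mul_of_nonneg_right ?_ (by positivity)
          linarith
  have hC : (k : ℝ) * X ^ (-ε) ≤ k / 8 * X ^ (-(e / 2)) := by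
    have h1 : X ^ (-ε) ≤ X ^ (-e) := hmono _ _ (by linarith)
    have h2 : X ^ (-(e / 2)) = X ^ (e / 2) * X ^ (-e) := by
      rw [hmul]
      congr 1
      ring
    rw [h2]
    have h3 : 0 < X ^ (-e) := by positivity
    calc (k : ℝ) * X ^ (-ε) ≤ k * X ^ (-e) := mul_le_mul_of_nonneg_left h1 hk0.le
      _ = k / 8 * (8 * X ^ (-e)) := by ring
      _ ≤ k / 8 * (X ^ (e / 2) * X ^ (-e)) := by
          refine mul_le_mul_of_nonneg_left ?_ (by positivity)
          exact mul_le_mul_of_nonneg_right (by linarith) h3.le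
  linarith

/-- no Grimm assignment -/
theorem no_assignment {ε : ℝ} (hε : 0 < ε) : ∃ N : ℕ, 1 ≤ N ∧ ∀ n k : ℕ, N ≤ n →
    (n : ℝ) ^ (3 / 7 + ε) ≤ k →
      ¬ ∃ p : Fin k → ℕ, Function.Injective p ∧ ∀ i : Fin k, (p i).Prime ∧ p i ∣ n + (i : ℕ) := by
  set e : ℝ := min ε (1 / 10) with he
  have he0 : 0 < e := lt_min hε (by norm_num)
  have he1 : e ≤ 1 / 10 := min_le_right _ _
  have he2 : e ≤ ε := min_le_left _ _
  obtain ⟨N, hN1, hN⟩ := missing he0
  refine ⟨N, hN1, fun n k hn hk => ?_⟩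
  rintro ⟨p, hp, hpd⟩
  have hn1 : 1 ≤ n := hN1.trans hn
  have hX1 : (1 : ℝ) ≤ n := by exact_mod_cast hn1
  set k' : ℕ := min k n with hk'
  have hk1 : (n : ℝ) ^ (3 / 7 + e) ≤ (k' : ℝ) := by
    rw [hk']
    push_cast
    refine le_min ?_ ?_
    · exact (Real.rpow_le_rpow_of_exponent_le hX1 (by linarith)).trans hk
    · calc (n : ℝ) ^ (3 / 7 + e) ≤ (n : ℝ) ^ (1 : ℝ) :=
            Real.rpow_le_rpow_of_exponent_le hX1 (by linarith)
        _ = n := Real.rpow_one _
  have hkk : k' ≤ k := min_le_left _ _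
  have h1 := hN n k' hn hk1 (min_le_right _ _) (range k')
    (fun i => if hi : i < k then p ⟨i, hi⟩ else 0) (subset_refl _) (by
      intro i hi
      rw [mem_range] at hi
      have h2 : i < k := by omega
      simp only [h2, dif_pos]
      exact hpd ⟨i, h2⟩) (by
      intro i hi j hj hij
      rw [mem_range] at hi hj
      have h2 : i < k := by omega
      have h3 : j < k := by omega
      simp only [h2, h3, dif_pos] at hij
      have := hp hij
      simpa using this)
  rw [card_range] at h1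
  have h2 : (0 : ℝ) < k' := lt_of_lt_of_le (by positivity) hk1
  have h3 : (0 : ℝ) < (k' : ℝ) * (n : ℝ) ^ (-e) := by positivity
  linarith

/-- consequence of Grimm's conjecture for the gaps between primes -/
theorem gaps (G : ∀ n k : ℕ, 1 ≤ n → 1 ≤ k → (∀ i : ℕ, i < k → 1 < n + i ∧ ¬ (n + i).Prime) →
      ∃ p : Fin k → ℕ, Function.Injective p ∧ ∀ i : Fin k, (p i).Prime ∧ p i ∣ n + (i : ℕ))
    {ε : ℝ} (hε : 0 < ε) : ∃ N : ℕ, ∀ p q : ℕ, N ≤ p → p.Prime → q.Prime → p < q →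
      (∀ r, p < r → r < q → ¬ r.Prime) → (q : ℝ) - p < (p : ℝ) ^ (3 / 7 + ε) := by
  set e : ℝ := min ε (1 / 2) / 2 with he
  have he0 : 0 < e := by
    rw [he]
    have : 0 < min ε (1 / 2) := lt_min hε (by norm_num)
    linarith
  have he1 : e ≤ 1 / 4 := by
    rw [he]
    have : min ε (1 / 2) ≤ 1 / 2 := min_le_right _ _
    linarith
  have he2 : 2 * e ≤ ε := by
    rw [he]
    have : min ε (1 / 2) ≤ ε := min_le_left _ _
    linarith
  obtain ⟨N1, hN1, hno⟩ := no_assignment he0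
  have hlim : Filter.Tendsto (fun x : ℕ => (x : ℝ) ^ e) Filter.atTop Filter.atTop :=
    (tendsto_rpow_atTop (by positivity)).comp tendsto_natCast_atTop_atTop
  obtain ⟨N2, hN2⟩ := (Filter.eventually_atTop.1 (hlim.eventually_ge_atTop 4))
  refine ⟨max N1 N2, fun p q hp hpp hqp hpq hr => ?_⟩
  by_contra hcon
  push Not at hcon
  have hpN1 : N1 ≤ p := (le_max_left _ _).trans hp
  have hu := hN2 p ((le_max_right _ _).trans hp)
  have hX1 : (1 : ℝ) ≤ p := by exact_mod_cast hpp.one_lt.le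
  have hX0 : (0 : ℝ) < p := by linarith
  have h1 : 4 * (p : ℝ) ^ (3 / 7 + e) ≤ (q : ℝ) - p := by
    calc 4 * (p : ℝ) ^ (3 / 7 + e) ≤ (p : ℝ) ^ e * (p : ℝ) ^ (3 / 7 + e) :=
          mul_le_mul_of_nonneg_right hu (by positivity)
      _ = (p : ℝ) ^ (3 / 7 + 2 * e) := by
          rw [← Real.rpow_add hX0]
          congr 1
          ring
      _ ≤ (p : ℝ) ^ (3 / 7 + ε) := Real.rpow_le_rpow_of_exponent_le hX1 (by linarith)
      _ ≤ _ := hcon
  have h2 : (1 : ℝ) ≤ (p : ℝ) ^ (3 / 7 + e) := Real.one_le_rpow hX1 (by linarith)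
  have h3 : ((p + 1 : ℕ) : ℝ) ^ (3 / 7 + e) ≤ 2 * (p : ℝ) ^ (3 / 7 + e) := by
    have h4 : ((p + 1 : ℕ) : ℝ) ≤ 2 * p := by
      push_cast
      linarith
    calc ((p + 1 : ℕ) : ℝ) ^ (3 / 7 + e) ≤ (2 * (p : ℝ)) ^ (3 / 7 + e) :=
          Real.rpow_le_rpow (by positivity) h4 (by linarith)
      _ = (2 : ℝ) ^ (3 / 7 + e) * (p : ℝ) ^ (3 / 7 + e) := Real.mul_rpow (by norm_num) hX0.le
      _ ≤ (2 : ℝ) ^ (1 : ℝ) * (p : ℝ) ^ (3 / 7 + e) :=
          mul_le_mul_of_nonneg_right
            (Real.rpow_le_rpow_of_exponent_le (by norm_num) (by linarith)) (by positivity)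
      _ = _ := by rw [Real.rpow_one]
  have hk : ((q - p - 1 : ℕ) : ℝ) = (q : ℝ) - p - 1 := by
    rw [Nat.cast_sub (by omega), Nat.cast_sub (by omega)]
    push_cast
    ring
  have h5 : ((p + 1 : ℕ) : ℝ) ^ (3 / 7 + e) ≤ ((q - p - 1 : ℕ) : ℝ) := by
    rw [hk]
    linarith
  have h6 : 1 ≤ q - p - 1 := by
    have : (1 : ℝ) ≤ ((q - p - 1 : ℕ) : ℝ) := by
      rw [hk]
      linarith
    exact_mod_cast this
  refine hno (p + 1) (q - p - 1) (by omega) h5 (G (p + 1) (q - p - 1) (by omega) h6 ?_)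
  intro i hi
  exact ⟨by have := hpp.one_lt; omega, hr _ (by omega) (by omega)⟩

end Pool.Agent.Helper11.Grimm
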