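import Mathlib

/-!
# Lattice points in a thin hyperbolic strip

For a real number `y = r ^ 2` and `H ≥ 20 y^(1/3)` (roughly) every reduced fraction `p/q` in `(1, 2]`
with `Q < q ≤ 2 Q`, `Q ≈ y^(1/6)/4`, produces a factorisation `y < a b ≤ y + H` with `a` near
`r √(q/p)`; different fractions give different `a`.
-/

set_option autoImplicit false

open Finset

namespace Pool.Agent.Helper11.Grimm

theorem rep {p q : ℕ} (hq : 0 < q) (h : Nat.Coprime p q) (N : ℤ) :
    ∃ j : ℕ, j < q ∧ ∃ b : ℤ, N = b * q + j * p := by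
  obtain ⟨a, c, hac⟩ := Nat.isCoprime_iff_coprime.2 h
  have hq' : (0 : ℤ) < q := by exact_mod_cast hq
  have h2 := Int.emod_lt_of_pos (N * a) hq'
  have h3 := Int.emod_nonneg (N * a) hq'.ne'
  refine ⟨((N * a) % q).toNat, by omega, (N * a) / q * p + N * c, ?_⟩
  rw [Int.toNat_of_nonneg h3]
  have h4 : N * a % q + q * (N * a / q) = N * a := Int.emod_add_mul_ediv (N * a) q
  linear_combination (-N) * hac - (p : ℤ) * h4

theorem hyp_point {r H : ℝ} {Q p q : ℕ} (hr : 0 < r) (hQ : 1 ≤ Q) (h1 : 64 * (Q : ℝ) ^ 3 ≤ r)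
    (h2 : 4 * r ≤ Q * H) (h3 : 48 * (Q : ℝ) ^ 2 ≤ H) (hc : Nat.Coprime p q) (hq1 : Q < q)
    (hq2 : q ≤ 2 * Q) (hp1 : q < p) (hp2 : p ≤ 2 * q) :
    ∃ a b : ℕ, r * √((q : ℝ) / p) ≤ a ∧ (a : ℝ) < r * √((q : ℝ) / p) + 2 * Q ∧
      r ^ 2 < a * b ∧ (a * b : ℝ) ≤ r ^ 2 + H := by
  have hQ1 : (1 : ℝ) ≤ Q := by exact_mod_cast hQ
  have hq0 : (0 : ℝ) < q := by
    have : 0 < q := by omega
    exact_mod_cast this
  have hp0 : (0 : ℝ) < p := by
    have : 0 < p := by omega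
    exact_mod_cast this
  have hqQ : (Q : ℝ) ≤ q := by exact_mod_cast hq1.le
  have hqQ2 : (q : ℝ) ≤ 2 * Q := by exact_mod_cast hq2
  have hpq : (q : ℝ) ≤ p := by exact_mod_cast hp1.le
  have hpq2 : (p : ℝ) ≤ 2 * q := by exact_mod_cast hp2
  have hH : 0 < H := by
    have : (0 : ℝ) < 48 * (Q : ℝ) ^ 2 := by positivity
    linarith
  set s : ℝ := (p : ℝ) / q with hs
  have hs0 : 0 < s := by positivity
  have hs2 : s ≤ 2 := by rw [hs, div_le_iff₀ hq0]; exact hpq2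
  have hsq : s * q = p := by rw [hs]; field_simp
  set a1 : ℝ := r * √((q : ℝ) / p) with ha1
  have hsqrt : √((q : ℝ) / p) ^ 2 = (q : ℝ) / p := Real.sq_sqrt (by positivity)
  have hsa : s * a1 ^ 2 = r ^ 2 := by
    rw [ha1, mul_pow, hsqrt, hs]
    field_simp
  have ha1r : a1 ≤ r := by
    have h4 : √((q : ℝ) / p) ≤ 1 := by
      refine Real.sqrt_le_one.2 ?_
      rw [div_le_one hp0]
      exact hpq
    rw [ha1]
    calc r * √((q : ℝ) / p) ≤ r * 1 := mul_le_mul_of_nonneg_left h4 hr.le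
      _ = r := mul_one r
  have ha1l : 7 / 10 * r ≤ a1 := by
    have h4 : (7 / 10 : ℝ) ≤ √((q : ℝ) / p) := by
      apply Real.le_sqrt_of_sq_le
      rw [le_div_iff₀ hp0]
      linarith
    rw [ha1, mul_comm]
    exact mul_le_mul_of_nonneg_left h4 hr.le
  have ha10 : 0 < a1 := by
    have : 0 < 7 / 10 * r := by positivity
    linarith
  set m : ℕ := ⌈a1⌉₊ with hm
  have hm1 : a1 ≤ m := Nat.le_ceil a1
  have hm2 : (m : ℝ) < a1 + 1 := Nat.ceil_lt_add_one ha10.le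
  set w : ℝ := H / (2 * r) with hw
  have hw0 : 0 < w := by positivity
  have hwr : w * (2 * r) = H := by rw [hw]; field_simp
  have hqw : 1 ≤ q * (w / 2) := by
    have h5 : (Q : ℝ) * (w / 2) * (4 * r) = Q * H := by
      rw [← hwr]
      ring
    have h6 : 1 ≤ (Q : ℝ) * (w / 2) := by
      by_contra hlt
      push Not at hlt
      have := mul_lt_mul_of_pos_right hlt (by positivity : (0 : ℝ) < 4 * r)
      linarith
    have h7 : (Q : ℝ) * (w / 2) ≤ q * (w / 2) := mul_le_mul_of_nonneg_right hqQ (by positivity)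
    linarith
  set L : ℝ := s * a1 - s * (m - a1) with hL
  set N : ℤ := ⌊(q : ℝ) * (L + w / 2)⌋ + 1 with hN
  have hN1 : (q : ℝ) * (L + w / 2) < N := by
    rw [hN]
    push_cast
    exact Int.lt_floor_add_one _
  have hN2 : (N : ℝ) ≤ q * (L + w) := by
    rw [hN]
    push_cast
    have h8 := Int.floor_le ((q : ℝ) * (L + w / 2))
    have h9 : (q : ℝ) * (L + w) = q * (L + w / 2) + q * (w / 2) := by ring
    linarith
  obtain ⟨j, hj, b, hb⟩ := rep (by omega : 0 < q) hc N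
  have hbR : (N : ℝ) = q * (b + j * s) := by
    rw [hb]
    push_cast
    rw [← hsq]
    ring
  rw [hbR] at hN1 hN2
  have hb1 : L + w / 2 < b + j * s := lt_of_mul_lt_mul_left hN1 hq0.le
  have hb2 : b + j * s ≤ L + w := le_of_mul_le_mul_left hN2 hq0
  have hjq : (j : ℝ) + 1 ≤ q := by exact_mod_cast hj
  set t : ℝ := (m : ℝ) + j - a1 with ht
  have ht0 : 0 ≤ t := by
    have : (0 : ℝ) ≤ j := Nat.cast_nonneg j
    linarith
  have ht1 : t < 2 * Q := by linarith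
  have hLt : L - j * s = s * (a1 - t) := by rw [hL, ht]; ring
  have hat : (m : ℝ) + j = a1 + t := by rw [ht]; ring
  have hst : s * t ^ 2 ≤ (a1 + t) * (w / 2) := by
    have e1 : t ^ 2 ≤ (2 * Q) ^ 2 := pow_le_pow_left₀ ht0 ht1.le 2
    have e2 : s * t ^ 2 ≤ 2 * (2 * Q) ^ 2 :=
      mul_le_mul hs2 e1 (by positivity) (by norm_num)
    have e3 : 7 / 10 * r * (w / 2) ≤ (a1 + t) * (w / 2) :=
      mul_le_mul_of_nonneg_right (by linarith) (by positivity)
    have e4 : 7 / 10 * r * (w / 2) = 7 / 40 * H := by rw [← hwr]; ring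
    have e5 : (2 : ℝ) * (2 * Q) ^ 2 = 8 * (Q : ℝ) ^ 2 := by ring
    have e6 : (0 : ℝ) ≤ (Q : ℝ) ^ 2 := by positivity
    linarith
  have hsq2 : (a1 + t) * (s * (a1 - t)) = r ^ 2 - s * t ^ 2 := by
    rw [← hsa]
    ring
  have hlow : r ^ 2 < (a1 + t) * b := by
    have e1 : s * (a1 - t) + w / 2 < b := by linarith
    have e2 := mul_lt_mul_of_pos_left e1 (by linarith : 0 < a1 + t)
    rw [mul_add, hsq2] at e2
    linarith
  have hup : (a1 + t) * b ≤ r ^ 2 + H := by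
    have e1 : (b : ℝ) ≤ s * (a1 - t) + w := by linarith
    have e2 := mul_le_mul_of_nonneg_left e1 (by linarith : 0 ≤ a1 + t)
    rw [mul_add, hsq2] at e2
    have e3 : (a1 + t) * w ≤ 2 * r * w := by
      refine mul_le_mul_of_nonneg_right ?_ hw0.le
      have e4 : (Q : ℝ) ≤ (Q : ℝ) ^ 3 := by
        calc (Q : ℝ) = (Q : ℝ) ^ 1 := (pow_one _).symm
          _ ≤ (Q : ℝ) ^ 3 := pow_le_pow_right₀ hQ1 (by norm_num)
      linarith
    have e5 : 0 ≤ s * t ^ 2 := by positivity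
    linarith
  have hbpos : 0 < b := by
    have e1 : 0 < (a1 + t) * b := lt_trans (by positivity) hlow
    have e2 : (0 : ℝ) < b := (pos_iff_pos_of_mul_pos e1).1 (by linarith)
    exact_mod_cast e2
  refine ⟨m + j, b.toNat, ?_, ?_, ?_, ?_⟩
  · push_cast
    linarith
  · push_cast
    linarith
  · have e1 : ((b.toNat : ℕ) : ℝ) = b := by
      have : ((b.toNat : ℕ) : ℤ) = b := Int.toNat_of_nonneg hbpos.le
      exact_mod_cast congrArg (Int.cast : ℤ → ℝ) this
    rw [e1]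
    push_cast
    rw [hat]
    exact hlow
  · have e1 : ((b.toNat : ℕ) : ℝ) = b := by
      have : ((b.toNat : ℕ) : ℤ) = b := Int.toNat_of_nonneg hbpos.le
      exact_mod_cast congrArg (Int.cast : ℤ → ℝ) this
    rw [e1]
    push_cast
    rw [hat]
    exact hup

/-- the points `r √(q/p)` of different reduced fractions are far apart -/
theorem hyp_sep {r : ℝ} {Q p q p' q' : ℕ} (hr : 0 < r) (hQ : 1 ≤ Q) (h1 : 64 * (Q : ℝ) ^ 3 ≤ r)
    (hc : Nat.Coprime p q) (hq1 : Q < q) (hq2 : q ≤ 2 * Q) (hp1 : q < p) (hp2 : p ≤ 2 * q)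
    (hc' : Nat.Coprime p' q') (hq1' : Q < q') (hq2' : q' ≤ 2 * Q) (hp1' : q' < p') (hp2' : p' ≤ 2 * q')
    (hne : (p, q) ≠ (p', q')) :
    2 * (Q : ℝ) ≤ |r * √((q : ℝ) / p) - r * √((q' : ℝ) / p')| := by
  have hQ0 : (0 : ℝ) < Q := by
    have : 0 < Q := by omega
    exact_mod_cast this
  have hp0 : (0 : ℝ) < p := by
    have : 0 < p := by omega
    exact_mod_cast this
  have hp0' : (0 : ℝ) < p' := by
    have : 0 < p' := by omega
    exact_mod_cast this
  have hpQ : (p : ℝ) ≤ 4 * Q := by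
    have : p ≤ 4 * Q := by omega
    exact_mod_cast this
  have hpQ' : (p' : ℝ) ≤ 4 * Q := by
    have : p' ≤ 4 * Q := by omega
    exact_mod_cast this
  have hx : √((q : ℝ) / p) ^ 2 = (q : ℝ) / p := Real.sq_sqrt (by positivity)
  have hx' : √((q' : ℝ) / p') ^ 2 = (q' : ℝ) / p' := Real.sq_sqrt (by positivity)
  have hl : √((q : ℝ) / p) ≤ 1 := by
    refine Real.sqrt_le_one.2 ?_
    rw [div_le_one hp0]
    exact_mod_cast hp1.le
  have hl' : √((q' : ℝ) / p') ≤ 1 := by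
    refine Real.sqrt_le_one.2 ?_
    rw [div_le_one hp0']
    exact_mod_cast hp1'.le
  set u := √((q : ℝ) / p) with hu
  set v := √((q' : ℝ) / p') with hv
  have hu0 : 0 ≤ u := Real.sqrt_nonneg _
  have hv0 : 0 ≤ v := Real.sqrt_nonneg _
  have hint : (q : ℤ) * p' - q' * p ≠ 0 := by
    intro h
    have h4 : q * p' = q' * p := by
      have : (q : ℤ) * p' = q' * p := by linarith
      exact_mod_cast this
    have h5 : p ∣ p' := hc.dvd_of_dvd_mul_left (by rw [h4]; exact dvd_mul_left _ _)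
    have h6 : p' ∣ p := hc'.dvd_of_dvd_mul_left (by rw [← h4]; exact dvd_mul_left _ _)
    have h7 : p = p' := Nat.dvd_antisymm h5 h6
    have h8 : q = q' := by
      rw [h7] at h4
      exact Nat.eq_of_mul_eq_mul_right (by omega) h4
    exact hne (by rw [h7, h8])
  have hone : (1 : ℝ) ≤ |(q : ℝ) * p' - q' * p| := by
    have h4 : (1 : ℤ) ≤ |(q : ℤ) * p' - q' * p| := Int.one_le_abs hint
    exact_mod_cast h4
  have hdiff : (u - v) * (u + v) * (p * p') = q * p' - q' * p := by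
    have h4 : (u - v) * (u + v) = (q : ℝ) / p - q' / p' := by
      rw [← hx, ← hx']
      ring
    rw [h4]
    field_simp
  have h5 : |u - v| * (u + v) * (p * p') = |(q : ℝ) * p' - q' * p| := by
    rw [← hdiff, abs_mul, abs_mul, abs_of_nonneg (by positivity : 0 ≤ u + v),
      abs_of_pos (by positivity : (0 : ℝ) < p * p')]
  have h6 : |u - v| * (u + v) * (p * p') ≤ |u - v| * 2 * (4 * Q * (4 * Q)) := by
    refine mul_le_mul ?_ (mul_le_mul hpQ hpQ' hp0'.le (by positivity)) (by positivity)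
      (by positivity)
    exact mul_le_mul_of_nonneg_left (by linarith) (abs_nonneg _)
  have h7 : 1 ≤ |u - v| * (32 * (Q : ℝ) ^ 2) := by
    calc (1 : ℝ) ≤ |u - v| * 2 * (4 * Q * (4 * Q)) := by linarith
      _ = _ := by ring
  rw [← mul_sub, abs_mul, abs_of_pos hr]
  have h8 : 64 * (Q : ℝ) ^ 3 * |u - v| ≤ r * |u - v| :=
    mul_le_mul_of_nonneg_right h1 (abs_nonneg _)
  have h9 : 2 * (Q : ℝ) * 1 ≤ 2 * Q * (|u - v| * (32 * (Q : ℝ) ^ 2)) :=
    mul_le_mul_of_nonneg_left h7 (by positivity)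
  calc 2 * (Q : ℝ) = 2 * Q * 1 := (mul_one _).symm
    _ ≤ 2 * Q * (|u - v| * (32 * (Q : ℝ) ^ 2)) := h9
    _ = 64 * (Q : ℝ) ^ 3 * |u - v| := by ring
    _ ≤ _ := h8

end Pool.Agent.Helper11.Grimm
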